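import Pool.Agent.H86.UD.AsmL
import Pool.Agent.H64.IRL.L1

/-! MP_a758cf_pr: for c < 1 - log 2 the characteristic polynomial of the adjacency matrix of G(n,1/2) has, with probability
at least 1 - ε, no rational factor whose degree lies in a prescribed union of at most (n/L)^c intervals of length L, for all
L with 1 <= L <= δ n. (One interval of length δ n; or n^c single degrees.) -/

set_option autoImplicit false

open Filter Topology Polynomial
open scoped Classical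

namespace Pool.Agent.Results.MP_a758cf_pr.DegreeIntervals

theorem result (c : ℝ) (hc : c < 1 - Real.log 2) (ε : ℝ) (hε : 0 < ε) :
    ∃ δ : ℝ, 0 < δ ∧ ∃ n0 : ℕ, ∀ n : ℕ, n0 ≤ n → ∀ L : ℕ, 1 ≤ L → (L : ℝ) ≤ δ * n →
      ∀ S : Finset ℕ, (S.card : ℝ) ≤ ((n : ℝ) / L) ^ c →
        (Nat.card {G : SimpleGraph (Fin n) // ∃ f : ℚ[X], f ∣ (G.adjMatrix ℚ).charpoly ∧
            1 ≤ f.natDegree ∧ f.natDegree < n ∧ ∃ a ∈ S, a ≤ f.natDegree ∧ f.natDegree ≤ a + L} : ℝ) /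
          (Nat.card (SimpleGraph (Fin n)) : ℝ) ≤ ε := by
  obtain ⟨δ, hδ, n0, hn0⟩ := Pool.H86.UD.ud_int c ε hc hε
  refine ⟨δ, hδ, n0, fun n hn L hL hLδ S hS => ?_⟩
  rw [Pool.H64.IR.fin_card n (fun F => ∃ f : ℚ[X], f ∣ F ∧ 1 ≤ f.natDegree ∧ f.natDegree < n ∧
    ∃ a ∈ S, a ≤ f.natDegree ∧ f.natDegree ≤ a + L)]
  exact hn0 n hn L hL hLδ S hS

end Pool.Agent.Results.MP_a758cf_pr.DegreeIntervals
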