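import Pool.Agent.H64.IRL.L8
import Pool.Agent.H64.IRL.L1

/-! MP_a758cf_pr: with probability tending to one the characteristic polynomial of the adjacency matrix of G(n,1/2)
has no rational factor whose degree lies between 1 and theta n (theta > 0 an absolute constant): all eigenvalues have
algebraic degree greater than theta n. -/

set_option autoImplicit false

open Filter Topology Polynomial
open scoped Classical

namespace Pool.Agent.Results.MP_a758cf_pr.NoSmallFactor

theorem result :
    ∃ θ : ℝ, 0 < θ ∧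
      Tendsto
        (fun n : ℕ =>
          (Nat.card {G : SimpleGraph (Fin n) // ∃ f : ℚ[X], f ∣ (G.adjMatrix ℚ).charpoly ∧
              1 ≤ f.natDegree ∧ (f.natDegree : ℝ) ≤ θ * n} : ℝ) /
            (Nat.card (SimpleGraph (Fin n)) : ℝ))
        atTop (𝓝 0) := by
  obtain ⟨θ, hθ, h⟩ := Pool.H64.IR.ta_bits
  refine ⟨θ, hθ, ?_⟩
  rw [Metric.tendsto_atTop]
  intro e he
  obtain ⟨n0, hn0⟩ := h (e / 2) (by positivity)
  refine ⟨n0, fun n hn => ?_⟩
  have h1 := hn0 n hn
  rw [Pool.H64.IR.fin_card n (fun F => ∃ f : ℚ[X], f ∣ F ∧ 1 ≤ f.natDegree ∧ (f.natDegree : ℝ) ≤ θ * n)]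
  rw [Real.dist_eq, sub_zero, abs_of_nonneg (Pool.H64.IR.pr_nonneg _)]
  linarith

end Pool.Agent.Results.MP_a758cf_pr.NoSmallFactor
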