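import Pool.Agent.H64.IRL.L9
import Pool.Agent.H64.IRL.L1

/-! MP_a758cf_pr: the probability that the characteristic polynomial of the adjacency matrix of G(n,1/2) is irreducible
over the rationals is bounded below by a positive constant for all large n. -/

set_option autoImplicit false

open Filter Topology Polynomial
open scoped Classical

namespace Pool.Agent.Results.MP_a758cf_pr.PositiveProportion

theorem result :
    ∃ c : ℝ, 0 < c ∧ ∀ᶠ n : ℕ in atTop,
      c ≤ (Nat.card {G : SimpleGraph (Fin n) // Irreducible (G.adjMatrix ℚ).charpoly} : ℝ) /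
          (Nat.card (SimpleGraph (Fin n)) : ℝ) := by
  obtain ⟨c, hc, n0, h⟩ := Pool.H64.IR.tb_bits
  refine ⟨c, hc, ?_⟩
  filter_upwards [eventually_ge_atTop n0] with n hn
  rw [Pool.H64.IR.fin_card n (fun F => Irreducible F)]
  exact h n hn

end Pool.Agent.Results.MP_a758cf_pr.PositiveProportion
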